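import Pool.Agent.Q240.CD.Stm3
import Pool.Agent.H24R2.JP.RH2
import Pool.Agent.H24R2.JP.Gam
import Pool.Agent.H24R2.JP.Mom
import Pool.Agent.H24R2.JP.B1

set_option autoImplicit false

/-!
# Project CD, job NoReal (helper202): no zeros of the zeta function in (0, 1)
-/

open Filter Topology Finset
open Pool.Agent.Q240.CD Pool.Agent.H24R2.JP

namespace Pool.Agent.Q202.CD

theorem FF_pos {x : ℝ} (hx : 0 ≤ x) : FF (x : ℂ) ≠ 0 := by
  have hg : ∀ k, 0 < gam k := (gamS mom).1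
  have h1 := rh2_summable b1 (x : ℂ)
  have h2 : ∀ k : ℕ, ((gam k : ℝ) : ℂ) / (k.factorial : ℂ) * (x : ℂ) ^ k =
      ((gam k / (k.factorial : ℝ) * x ^ k : ℝ) : ℂ) := by
    intro k
    push_cast
    rfl
  simp only [h2] at h1
  have h3 := Complex.hasSum_re h1
  simp only [Complex.ofReal_re] at h3
  have h4 : gam 0 / ((0 : ℕ).factorial : ℝ) * x ^ 0 ≤ (FF (x : ℂ)).re := by
    refine le_hasSum h3 0 fun k _ => ?_
    have := hg k
    positivity
  intro h
  rw [h, Complex.zero_re, pow_zero, mul_one, Nat.factorial_zero, Nat.cast_one, div_one] at h4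
  exact absurd (hg 0) (not_lt.2 h4)

theorem noReal : S_NoReal := by
  intro ρ hρ
  have h1 : XX ((ρ : ℂ) - 1 / 2) = 0 := (Y23.isZ_iff _).1 ρ.2
  have h2 : (ρ : ℂ) - 1 / 2 = (((ρ : ℂ).re - 1 / 2 : ℝ) : ℂ) := by
    apply Complex.ext
    · simp
    · simp [hρ]
  rw [h2, ← b1.2.1, ← Complex.ofReal_pow] at h1
  exact FF_pos (sq_nonneg _) h1

end Pool.Agent.Q202.CD
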