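import Pool.Agent.Q240.CD.Stm2

set_option autoImplicit false

/-!
# Project CD, job Inty (helper202)
-/

open Polynomial Filter Topology Finset MeasureTheory
open Pool.Agent.Q240.CD

namespace Pool.Agent.Q202.CD

theorem xk_pos {a : ℝ} (ha : 0 < a) (n : ℕ) : 0 < xk a (n + 1) := by
  unfold xk
  have := Real.pi_pos
  positivity

theorem decay (hB : S_SpB) (hF : S_Far) (a : ℝ) (n : ℕ) (ha : 0 < a) :
    ∃ C : ℝ, 0 < C ∧ ∀ z : ℂ, |z.im| ≤ 1 / 2 →
      ‖Sp a n z‖ ^ 2 ≤ C / (1 + ‖z‖) ^ (4 * n + 2) := by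
  have hX := xk_pos ha n
  set X := xk a (n + 1) with hXd
  set C₁ : ℝ := Real.exp a * X ^ (4 * n) / (a ^ 2 * 4 ^ n) with hC₁
  have hC₁p : 0 < C₁ := by positivity
  set D : ℝ := 3 / (2 * X) + 1 with hD
  have hDp : 0 < D := by positivity
  have hcont : Continuous fun z : ℂ => ‖Sp a n z‖ ^ 2 * (1 + ‖z‖) ^ (4 * n + 2) := by
    have h1 : Continuous (Sp a n) := (hB a n).1.continuous
    fun_prop
  obtain ⟨C₂, hC₂⟩ := (isCompact_closedBall (0 : ℂ) (X + 1 / 2)).bddAbove_image hcont.continuousOn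
  refine ⟨C₁ * D ^ (4 * n + 2) + |C₂|, by positivity, fun z hz => ?_⟩
  have hpos : 0 < (1 + ‖z‖) ^ (4 * n + 2) := by positivity
  rw [le_div_iff₀ hpos]
  rcases le_total X |z.re| with h | h
  · have hre : 0 < |z.re| := hX.trans_le h
    have h1 := hF a n z ha h
    have h2 : Real.exp (2 * a * |z.im|) / ((a * z.re) ^ 2 * (|z.re| / xk a (n + 1)) ^ (4 * n) *
        4 ^ n) ≤ C₁ / |z.re| ^ (4 * n + 2) := by
      have h3 : (a * z.re) ^ 2 * (|z.re| / xk a (n + 1)) ^ (4 * n) * 4 ^ n =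
          (a ^ 2 * 4 ^ n) * |z.re| ^ (4 * n + 2) / X ^ (4 * n) := by
        rw [mul_pow, ← sq_abs z.re, div_pow, pow_add, ← hXd]
        ring
      rw [h3, hC₁, div_div_eq_mul_div, div_div]
      gcongr
      nlinarith
    have h4 : 1 + ‖z‖ ≤ D * |z.re| := by
      have h5 : ‖z‖ ≤ |z.re| + |z.im| := Complex.norm_le_abs_re_add_abs_im z
      have h6 : 3 / 2 ≤ 3 / (2 * X) * |z.re| := by
        rw [div_mul_eq_mul_div, div_le_div_iff₀ (by norm_num) (by positivity)]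
        nlinarith
      have h7 : D * |z.re| = 3 / (2 * X) * |z.re| + |z.re| := by rw [hD]; ring
      rw [h7]
      linarith
    have h5 : (1 + ‖z‖) ^ (4 * n + 2) ≤ D ^ (4 * n + 2) * |z.re| ^ (4 * n + 2) := by
      rw [← mul_pow]
      exact pow_le_pow_left₀ (by positivity) h4 _
    calc ‖Sp a n z‖ ^ 2 * (1 + ‖z‖) ^ (4 * n + 2)
        ≤ (C₁ / |z.re| ^ (4 * n + 2)) * (D ^ (4 * n + 2) * |z.re| ^ (4 * n + 2)) :=
          mul_le_mul (h1.trans h2) h5 hpos.le (by positivity)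
      _ = C₁ * D ^ (4 * n + 2) := by
          have : |z.re| ^ (4 * n + 2) ≠ 0 := by positivity
          field_simp
      _ ≤ _ := le_add_of_nonneg_right (abs_nonneg _)
  · have h1 : z ∈ Metric.closedBall (0 : ℂ) (X + 1 / 2) := by
      rw [mem_closedBall_zero_iff]
      exact (Complex.norm_le_abs_re_add_abs_im z).trans (add_le_add h hz)
    have h2 : ‖Sp a n z‖ ^ 2 * (1 + ‖z‖) ^ (4 * n + 2) ≤ C₂ := hC₂ ⟨z, h1, rfl⟩
    have h3 : 0 ≤ C₁ * D ^ (4 * n + 2) := by positivity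
    linarith [le_abs_self C₂]

theorem eval_bound (p : ℝ[X]) (m : ℕ) (hp : p.natDegree ≤ m) (x : ℝ) :
    |p.eval x| ≤ (∑ i ∈ range (p.natDegree + 1), |p.coeff i|) * (1 + |x|) ^ m := by
  rw [Polynomial.eval_eq_sum_range, Finset.sum_mul]
  refine (Finset.abs_sum_le_sum_abs _ _).trans (Finset.sum_le_sum fun i hi => ?_)
  rw [abs_mul, abs_pow]
  refine mul_le_mul_of_nonneg_left ?_ (abs_nonneg _)
  have hi' : i ≤ m := by
    have := Finset.mem_range.1 hi
    omega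
  calc |x| ^ i ≤ (1 + |x|) ^ i := pow_le_pow_left₀ (abs_nonneg _) (by linarith) _
    _ ≤ (1 + |x|) ^ m := pow_le_pow_right₀ (by linarith [abs_nonneg x]) hi'

theorem inty (hB : S_SpB) (hF : S_Far) : S_Inty := by
  intro a n ha
  refine ⟨decay hB hF a n ha, ?_⟩
  intro p hp
  obtain ⟨C, hC, hd⟩ := decay hB hF a n ha
  set A : ℝ := ∑ i ∈ range (p.natDegree + 1), |p.coeff i| with hA
  have hA0 : 0 ≤ A := Finset.sum_nonneg fun i _ => abs_nonneg _
  have h0 : Integrable (fun x : ℝ => (A * C) * (1 + ‖x‖) ^ (-(2 : ℝ))) :=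
    (integrable_one_add_norm (by simp)).const_mul _
  refine h0.mono' ?_ (Filter.Eventually.of_forall fun x => ?_)
  · have h1 : Continuous (Sr a n) := (hB a n).2.1
    have h2 : Continuous fun x : ℝ => p.eval x * Sr a n x ^ 2 :=
      p.continuous.mul (h1.pow 2)
    exact h2.aestronglyMeasurable
  · have h1 := hd (x : ℂ) (by simp)
    rw [(hB a n).2.2.2.1 x, Complex.norm_real, Complex.norm_real, Real.norm_eq_abs,
      Real.norm_eq_abs, sq_abs] at h1
    have h2 := eval_bound p (4 * n) hp x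
    rw [Real.norm_eq_abs, abs_mul, abs_of_nonneg (sq_nonneg (Sr a n x)), Real.norm_eq_abs,
      Real.rpow_neg (by positivity)]
    have h3 : (1 + |x|) ^ (2 : ℝ) = (1 + |x|) ^ (2 : ℕ) := by
      rw [← Real.rpow_natCast]
      norm_num
    rw [h3]
    calc |p.eval x| * Sr a n x ^ 2
        ≤ (A * (1 + |x|) ^ (4 * n)) * (C / (1 + |x|) ^ (4 * n + 2)) :=
          mul_le_mul h2 h1 (sq_nonneg _) (by positivity)
      _ = A * C * ((1 + |x|) ^ 2)⁻¹ := by
          have h4 : (1 + |x|) ≠ 0 := by positivity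
          rw [pow_add]
          field_simp

end Pool.Agent.Q202.CD
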