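import Pool.Agent.Q240.CD.Stm2

set_option autoImplicit false

/-!
# Project CD, job Mj (helper202)
-/

open Polynomial Filter Topology Finset MeasureTheory
open Pool.Agent.Q240.CD

namespace Pool.Agent.Q202.CD

theorem max_le_exp {y : ℝ} (hy : 0 ≤ y) :
    max 1 y ≤ Real.exp ((8 / 7 : ℝ) * y ^ (7 / 8 : ℝ)) := by
  refine max_le ?_ ?_
  · exact Real.one_le_exp (mul_nonneg (by norm_num) (Real.rpow_nonneg hy _))
  · rcases hy.eq_or_lt with h | h
    · rw [← h]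
      exact (Real.exp_pos _).le
    · have h1 := Real.log_le_rpow_div hy (show (0 : ℝ) < 7 / 8 by norm_num)
      calc y = Real.exp (Real.log y) := (Real.exp_log h).symm
        _ ≤ Real.exp (y ^ (7 / 8 : ℝ) / (7 / 8)) := Real.exp_le_exp.2 h1
        _ = _ := by
          congr 1
          ring

theorem mj_bound : S_Mj := by
  intro g hg hs
  have hnn : ∀ j, 0 ≤ 1 / g j ^ (7 / 8 : ℝ) := fun j =>
    div_nonneg zero_le_one (Real.rpow_nonneg (hg j).le _)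
  refine ⟨(8 / 7 : ℝ) * (∑' j, 1 / g j ^ (7 / 8 : ℝ)) + 1, ?_, ?_⟩
  · have : 0 ≤ ∑' j, 1 / g j ^ (7 / 8 : ℝ) := tsum_nonneg hnn
    positivity
  · intro n t ht
    have h1 : mj g n t ≤ ∏ j ∈ range n, Real.exp ((8 / 7 : ℝ) * (t / g j) ^ (7 / 8 : ℝ)) := by
      unfold mj
      refine Finset.prod_le_prod (fun j _ => zero_le_one.trans (le_max_left _ _)) fun j _ => ?_
      exact max_le_exp (div_nonneg ht (hg j).le)
    refine h1.trans ?_
    rw [← Real.exp_sum]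
    refine Real.exp_le_exp.2 ?_
    have h2 : ∀ j ∈ range n, (8 / 7 : ℝ) * (t / g j) ^ (7 / 8 : ℝ) =
        ((8 / 7 : ℝ) * t ^ (7 / 8 : ℝ)) * (1 / g j ^ (7 / 8 : ℝ)) := by
      intro j _
      rw [Real.div_rpow ht (hg j).le]
      ring
    rw [Finset.sum_congr rfl h2, ← Finset.mul_sum]
    have h3 : ∑ j ∈ range n, 1 / g j ^ (7 / 8 : ℝ) ≤ ∑' j, 1 / g j ^ (7 / 8 : ℝ) :=
      hs.sum_le_tsum _ fun j _ => hnn j
    have h4 : 0 ≤ t ^ (7 / 8 : ℝ) := Real.rpow_nonneg ht _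
    have h5 := mul_le_mul_of_nonneg_left h3 (mul_nonneg (show (0 : ℝ) ≤ 8 / 7 by norm_num) h4)
    nlinarith [h5, h4]

end Pool.Agent.Q202.CD
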